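import Mathlib

/-!
# Co-consonant spaces and powerspaces: definitions
-/

set_option autoImplicit false

namespace Q209.CC

open TopologicalSpace Set Topology

/-- The upper topology of a poset, generated by the complements of the sets `↓x`. -/
@[reducible] def upperTopology (P : Type) [PartialOrder P] : TopologicalSpace P :=
  generateFrom {S | ∃ x : P, S = {y | ¬ y ≤ x}}

/-- The Scott open subsets of a poset: the upper sets which meet every directed set `D` that has a
supremum in the set. -/
def IsScottOpen {P : Type} [PartialOrder P] (U : Set P) : Prop :=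
  (∀ x ∈ U, ∀ y, x ≤ y → y ∈ U) ∧
    ∀ D : Set P, D.Nonempty → DirectedOn (· ≤ ·) D → ∀ s, IsLUB D s → s ∈ U → (D ∩ U).Nonempty

/-- `X` is co-consonant: on the lattice of the open subsets of `X` the upper topology and the
Scott topology coincide. -/
def CoConsonant (X : Type) [TopologicalSpace X] : Prop :=
  ∀ F : Set (Opens X), IsOpen[upperTopology (Opens X)] F ↔ IsScottOpen F

/-- The lower powerspace of `X`: the set of all closed subsets of `X`, -/
def LowerPowerspace (X : Type) [TopologicalSpace X] : Type := {C : Set X // IsClosed C}

/-- with the topology generated by the sets `{C | C ∩ U ≠ ∅}`, `U` open. -/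
instance (X : Type) [TopologicalSpace X] : TopologicalSpace (LowerPowerspace X) :=
  generateFrom {S | ∃ U : Set X, IsOpen U ∧ S = {C | (C.1 ∩ U).Nonempty}}

/-- The set `K` is the intersection of all open sets which contain it. -/
def IsSaturated {X : Type} [TopologicalSpace X] (K : Set X) : Prop :=
  ⋂₀ {U | IsOpen U ∧ K ⊆ U} = K

/-- The Smyth powerspace of `X`: the set of all nonempty compact saturated subsets of `X`, -/
def SmythPowerspace (X : Type) [TopologicalSpace X] : Type :=
  {K : Set X // K.Nonempty ∧ IsCompact K ∧ IsSaturated K}

/-- with the topology generated by the sets `{K | K ⊆ U}`, `U` open. -/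
instance (X : Type) [TopologicalSpace X] : TopologicalSpace (SmythPowerspace X) :=
  generateFrom {S | ∃ U : Set X, IsOpen U ∧ S = {K | K.1 ⊆ U}}

end Q209.CC
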