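import Pool.Agent.Q209.CC.Def
import Pool.Agent.Helper800.ConsL

/-!
# Co-consonance in terms of finite sets of points
-/

set_option autoImplicit false

namespace Q209.CC

open TopologicalSpace Set Topology
open Pool.Agent.Helper800.Cons (ScottOpen)

variable {X : Type} [TopologicalSpace X]

/-- Every Scott open family of open sets is generated by finite sets of points. -/
def FinGen (X : Type) [TopologicalSpace X] : Prop :=
  ∀ F : Set (Set X), ScottOpen F → ∀ U ∈ F, ∃ K : Set X, K.Finite ∧ K ⊆ U ∧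
    ∀ V : Set X, IsOpen V → K ⊆ V → V ∈ F

theorem lub_eq {D : Set (Opens X)} {s : Opens X} (h : IsLUB D s) :
    (s : Set X) = ⋃₀ ((fun O : Opens X => (O : Set X)) '' D) := by
  have h1 : s = sSup D := h.unique (isLUB_sSup D)
  rw [h1, Opens.coe_sSup, sUnion_image]

theorem finGen_of_coConsonant (h : CoConsonant X) : FinGen X := by
  intro F hF U hU
  have hS : IsScottOpen {O : Opens X | (O : Set X) ∈ F} := by
    refine ⟨fun O hO O' hOO' => hF.upper _ hO _ O'.isOpen hOO', ?_⟩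
    intro D hne hdir s hs hsF
    have hsF' : (s : Set X) ∈ F := hsF
    rw [lub_eq hs] at hsF'
    obtain ⟨_, ⟨O, hO, rfl⟩, h2⟩ := hF.directed _ (hne.image _) (by
      rintro _ ⟨O, hO, rfl⟩ _ ⟨O', hO', rfl⟩
      obtain ⟨O'', hO'', h3, h4⟩ := hdir O hO O' hO'
      exact ⟨_, ⟨O'', hO'', rfl⟩, h3, h4⟩) (by
      rintro _ ⟨O, hO, rfl⟩
      exact O.isOpen) hsF'
    exact ⟨O, hO, h2⟩
  have hG : GenerateOpen {S | ∃ x : Opens X, S = {y | ¬ y ≤ x}} {O : Opens X | (O : Set X) ∈ F} :=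
    (h _).2 hS
  have key : ∀ G : Set (Opens X), GenerateOpen {S | ∃ x : Opens X, S = {y | ¬ y ≤ x}} G →
      ∀ O ∈ G, ∃ K : Set X, K.Finite ∧ K ⊆ (O : Set X) ∧ ∀ V : Opens X, K ⊆ (V : Set X) → V ∈ G := by
    intro G hG
    induction hG with
    | basic s hs =>
      obtain ⟨W, rfl⟩ := hs
      intro O hO
      have hO' : ¬ (O : Set X) ⊆ (W : Set X) := hO
      obtain ⟨p, hp, hpW⟩ := not_subset.1 hO'
      refine ⟨{p}, finite_singleton p, by simpa using hp, fun V hV hVW => ?_⟩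
      exact hpW (hVW (hV rfl))
    | univ => exact fun O _ => ⟨∅, finite_empty, empty_subset _, fun V _ => trivial⟩
    | inter s t _ _ ih1 ih2 =>
      rintro O ⟨hO1, hO2⟩
      obtain ⟨K1, a1, b1, c1⟩ := ih1 O hO1
      obtain ⟨K2, a2, b2, c2⟩ := ih2 O hO2
      exact ⟨K1 ∪ K2, a1.union a2, union_subset b1 b2, fun V hV =>
        ⟨c1 V (subset_union_left.trans hV), c2 V (subset_union_right.trans hV)⟩⟩
    | sUnion S _ ih =>
      rintro O ⟨s, hs, hO⟩
      obtain ⟨K1, a1, b1, c1⟩ := ih s hs O hO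
      exact ⟨K1, a1, b1, fun V hV => ⟨s, hs, c1 V hV⟩⟩
  obtain ⟨K, h1, h2, h3⟩ := key _ hG ⟨U, hF.isOpen U hU⟩ hU
  exact ⟨K, h1, h2, fun V hV hKV => h3 ⟨V, hV⟩ hKV⟩

theorem isScottOpen_of_upper {F : Set (Opens X)}
    (hF : GenerateOpen {S | ∃ x : Opens X, S = {y | ¬ y ≤ x}} F) : IsScottOpen F := by
  induction hF with
  | basic s hs =>
    obtain ⟨W, rfl⟩ := hs
    refine ⟨fun O hO O' hOO' h => hO (hOO'.trans h), ?_⟩
    intro D hne hdir s hs hsW
    by_contra hcon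
    apply hsW
    apply hs.2
    intro O hO
    by_contra hOW
    exact hcon ⟨O, hO, hOW⟩
  | univ => exact ⟨fun _ _ _ _ => trivial, fun D hne _ _ _ _ => by rwa [inter_univ]⟩
  | inter s t _ _ ih1 ih2 =>
    refine ⟨fun O hO O' hOO' => ⟨ih1.1 O hO.1 O' hOO', ih2.1 O hO.2 O' hOO'⟩, ?_⟩
    intro D hne hdir w hw hwst
    obtain ⟨O1, hO1, h1⟩ := ih1.2 D hne hdir w hw hwst.1
    obtain ⟨O2, hO2, h2⟩ := ih2.2 D hne hdir w hw hwst.2
    obtain ⟨O, hO, h3, h4⟩ := hdir O1 hO1 O2 hO2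
    exact ⟨O, hO, ih1.1 _ h1 _ h3, ih2.1 _ h2 _ h4⟩
  | sUnion S _ ih =>
    refine ⟨?_, ?_⟩
    · rintro O ⟨s, hs, hO⟩ O' hOO'
      exact ⟨s, hs, (ih s hs).1 O hO O' hOO'⟩
    · rintro D hne hdir w hw ⟨s, hs, hws⟩
      obtain ⟨O, hO, h1⟩ := (ih s hs).2 D hne hdir w hw hws
      exact ⟨O, hO, s, hs, h1⟩

theorem coConsonant_of_finGen (h : FinGen X) : CoConsonant X := by
  intro F
  refine ⟨fun hF => isScottOpen_of_upper hF, fun hF => ?_⟩
  have hS : ScottOpen {W : Set X | ∃ O ∈ F, (O : Set X) = W} := by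
    constructor
    · rintro _ ⟨O, hO, rfl⟩
      exact O.isOpen
    · rintro _ ⟨O, hO, rfl⟩ V hV hOV
      exact ⟨⟨V, hV⟩, hF.1 O hO ⟨V, hV⟩ hOV, rfl⟩
    · rintro D hne hdir hop ⟨O, hO, hOD⟩
      obtain ⟨W, hW1, hW2⟩ := hF.2 {W : Opens X | (W : Set X) ∈ D} (by
          obtain ⟨V, hV⟩ := hne
          exact ⟨⟨V, hop V hV⟩, hV⟩) (by
          intro V hV V' hV'
          obtain ⟨V'', hV'', h1, h2⟩ := hdir _ hV _ hV'
          exact ⟨⟨V'', hop V'' hV''⟩, hV'', h1, h2⟩) O (by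
          constructor
          · intro V hV x hx
            show x ∈ (O : Set X)
            rw [hOD]
            exact ⟨V, hV, hx⟩
          · intro V hV x hx
            have hx' : x ∈ (O : Set X) := hx
            rw [hOD] at hx'
            obtain ⟨W, hW, hxW⟩ := hx'
            exact hV (show (⟨W, hop W hW⟩ : Opens X) ∈ _ from hW) hxW) hO
      exact ⟨W, hW1, W, hW2, rfl⟩
  have hpt : ∀ p : X, ∃ W : Opens X, ∀ V : Opens X, p ∈ V ↔ ¬ V ≤ W := by
    intro p
    refine ⟨⟨(closure {p})ᶜ, isClosed_closure.isOpen_compl⟩, fun V => ?_⟩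
    constructor
    · intro hp hV
      exact hV hp (subset_closure rfl)
    · intro hV
      by_contra hp
      apply hV
      intro x hx hxc
      obtain ⟨y, hy1, hy2⟩ := mem_closure_iff.1 hxc V V.isOpen hx
      rw [mem_singleton_iff] at hy2
      rw [hy2] at hy1
      exact hp hy1
  have hK : ∀ K : Set X, K.Finite → IsOpen[upperTopology (Opens X)] {V : Opens X | K ⊆ (V : Set X)} := by
    intro K hK
    have : {V : Opens X | K ⊆ (V : Set X)} = ⋂ p ∈ K, {V : Opens X | p ∈ V} := by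
      ext V
      simp only [mem_iInter]
      exact Iff.rfl
    rw [this]
    let := upperTopology (Opens X)
    refine hK.isOpen_biInter fun p _ => ?_
    obtain ⟨W, hW⟩ := hpt p
    have : {V : Opens X | p ∈ V} = {V | ¬ V ≤ W} := by
      ext V
      exact hW V
    rw [this]
    exact isOpen_generateFrom_of_mem ⟨W, rfl⟩
  let := upperTopology (Opens X)
  rw [isOpen_iff_forall_mem_open]
  intro O hO
  obtain ⟨K, h1, h2, h3⟩ := h _ hS (O : Set X) ⟨O, hO, rfl⟩
  refine ⟨{V : Opens X | K ⊆ (V : Set X)}, ?_, hK K h1, h2⟩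
  intro V hV
  obtain ⟨O', hO', h4⟩ := h3 V V.isOpen hV
  have : O' = V := Opens.ext h4
  rw [← this]
  exact hO'

end Q209.CC
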