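import Pool.Agent.Q209.CC.Equiv

/-!
# The lexicographic sum of two co-consonant spaces, with one more point
-/

set_option autoImplicit false

namespace Q209.CC

open TopologicalSpace Set Topology
open Pool.Agent.Helper800.Cons (ScottOpen)
open Pool.Agent.Helper800.ConsL

variable {Y1 Y2 : Type} [TopologicalSpace Y1] [TopologicalSpace Y2]

theorem finGen_L (h1 : FinGen Y1) (h2 : FinGen Y2) : FinGen (L Y1 Y2) := by
  intro F hF U hU
  have hUo := hF.isOpen U hU
  have hfin : ({x : L Y1 Y2 | x = L.a ∧ L.a ∈ U}).Finite :=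
    (finite_singleton (L.a : L Y1 Y2)).subset fun x hx => hx.1
  by_cases hr : (L.r ⁻¹' U).Nonempty
  · obtain ⟨z0, hz0⟩ := hr
    have hl : ∀ y, L.l y ∈ U := hUo.2.2 ⟨z0, hz0⟩
    have hF2 := hF.comap (fun V : Set Y2 => (lo (L.a ∈ U) V : Set (L Y1 Y2)))
      (fun V hV => isOpen_lo hV)
      (by
        intro V V' hV x hx
        cases x with
        | a => exact hx
        | l y => exact hx
        | r z => exact hV hx)
      (by
        rintro D ⟨V0, hV0⟩ x hx
        cases x with
        | a => exact ⟨_, ⟨V0, hV0, rfl⟩, hx⟩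
        | l y => exact ⟨_, ⟨V0, hV0, rfl⟩, trivial⟩
        | r z =>
          obtain ⟨V, hV, hz⟩ := hx
          exact ⟨_, ⟨V, hV, rfl⟩, hz⟩)
    have hmem : L.r ⁻¹' U ∈ {V : Set Y2 | IsOpen V ∧ (lo (L.a ∈ U) V : Set (L Y1 Y2)) ∈ F} := by
      refine ⟨hUo.2.1, ?_⟩
      have : (lo (L.a ∈ U) (L.r ⁻¹' U) : Set (L Y1 Y2)) = U := by
        ext x
        cases x with
        | a => exact Iff.rfl
        | l y => exact ⟨fun _ => hl y, fun _ => trivial⟩
        | r z => exact Iff.rfl
      rw [this]
      exact hU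
    obtain ⟨K, hK, hKU, hKV⟩ := h2 _ hF2 _ hmem
    refine ⟨{x : L Y1 Y2 | x = L.a ∧ L.a ∈ U} ∪ L.r '' (K ∪ {z0}), ?_, ?_, ?_⟩
    · exact hfin.union ((hK.union (finite_singleton z0)).image _)
    · rintro x (⟨rfl, hx⟩ | ⟨z, (hz | rfl), rfl⟩)
      · exact hx
      · exact hKU hz
      · exact hz0
    · intro V hV hKV'
      have hz0V : z0 ∈ L.r ⁻¹' V := hKV' (Or.inr ⟨z0, Or.inr rfl, rfl⟩)
      have hlV : ∀ y, L.l y ∈ V := hV.2.2 ⟨z0, hz0V⟩
      have h3 := hKV (L.r ⁻¹' V) hV.2.1 fun z hz => hKV' (Or.inr ⟨z, Or.inl hz, rfl⟩)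
      apply hF.upper _ h3.2 V hV
      intro x hx
      cases x with
      | a => exact hKV' (Or.inl ⟨rfl, hx⟩)
      | l y => exact hlV y
      | r z => exact hx
  · have hF1 := hF.comap (fun V : Set Y1 => (up (L.a ∈ U) V : Set (L Y1 Y2)))
      (fun V hV => isOpen_up hV)
      (by
        intro V V' hV x hx
        cases x with
        | a => exact hx
        | l y => exact hV hx
        | r z => exact hx)
      (by
        rintro D ⟨V0, hV0⟩ x hx
        cases x with
        | a => exact ⟨_, ⟨V0, hV0, rfl⟩, hx⟩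
        | l z =>
          obtain ⟨V, hV, hz⟩ := hx
          exact ⟨_, ⟨V, hV, rfl⟩, hz⟩
        | r y => exact hx.elim)
    have hmem : L.l ⁻¹' U ∈ {V : Set Y1 | IsOpen V ∧ (up (L.a ∈ U) V : Set (L Y1 Y2)) ∈ F} := by
      refine ⟨hUo.1, ?_⟩
      have : (up (L.a ∈ U) (L.l ⁻¹' U) : Set (L Y1 Y2)) = U := by
        ext x
        cases x with
        | a => exact Iff.rfl
        | l y => exact Iff.rfl
        | r z => exact ⟨fun h => h.elim, fun h => hr ⟨z, h⟩⟩
      rw [this]
      exact hU
    obtain ⟨K, hK, hKU, hKV⟩ := h1 _ hF1 _ hmem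
    refine ⟨{x : L Y1 Y2 | x = L.a ∧ L.a ∈ U} ∪ L.l '' K, ?_, ?_, ?_⟩
    · exact hfin.union (hK.image _)
    · rintro x (⟨rfl, hx⟩ | ⟨z, hz, rfl⟩)
      · exact hx
      · exact hKU hz
    · intro V hV hKV'
      have h3 := hKV (L.l ⁻¹' V) hV.1 fun z hz => hKV' (Or.inr ⟨z, hz, rfl⟩)
      apply hF.upper _ h3.2 V hV
      intro x hx
      cases x with
      | a => exact hKV' (Or.inl ⟨rfl, hx⟩)
      | l y => exact hx
      | r z => exact hx.elim

theorem t0_L (h1 : T0Space Y1) (h2 : T0Space Y2) : T0Space (L Y1 Y2) := by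
  rw [t0Space_iff_inseparable] at h1 h2 ⊢
  have key : ∀ x y : L Y1 Y2, (∀ U : Set (L Y1 Y2), IsOpen U → (x ∈ U ↔ y ∈ U)) → x = y := by
    intro x y h
    cases x with
    | a =>
      have h1 := (h (up True ∅) (isOpen_up isOpen_empty)).1 trivial
      cases y with
      | a => rfl
      | l y => exact h1.elim
      | r z => exact h1.elim
    | l x =>
      have h3 := (h (up False univ) (isOpen_up isOpen_univ)).1 trivial
      cases y with
      | a => exact h3.elim
      | l y =>
        congr 1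
        apply h1
        rw [inseparable_iff_forall_isOpen]
        intro U hU
        exact h (up False U) (isOpen_up hU)
      | r z => exact h3.elim
    | r x =>
      have h3 := (h (lo False univ) (isOpen_lo isOpen_univ)).1 trivial
      cases y with
      | a => exact h3.elim
      | l y =>
        have h4 := (h (up False univ) (isOpen_up isOpen_univ)).2 trivial
        exact h4.elim
      | r z =>
        congr 1
        apply h2
        rw [inseparable_iff_forall_isOpen]
        intro U hU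
        exact h (lo False U) (isOpen_lo hU)
  intro x y h
  apply key
  rw [inseparable_iff_forall_isOpen] at h
  exact h

end Q209.CC
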