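import Pool.Agent.Q209.CC.SpaceZ

/-!
# The lower powerspace of the space `L X1 Seq`
-/

set_option autoImplicit false

namespace Q209.CC

open TopologicalSpace Set Topology
open Pool.Agent.Helper800.Cons (ScottOpen)
open Pool.Agent.Helper800.ConsL
open Q209.Om (W1)

/-- The basic open sets of the lower powerspace. -/
def dia (U : Set Z) : Set (LowerPowerspace Z) := {C | (C.1 ∩ U).Nonempty}

theorem isOpen_dia {U : Set Z} (hU : IsOpen U) : IsOpen (dia U) :=
  isOpen_generateFrom_of_mem ⟨U, hU, rfl⟩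

theorem isClosed_a : IsClosed ({L.a} : Set Z) := by
  have : ({L.a} : Set Z)ᶜ = lo False univ := by
    ext x
    cases x with
    | a => exact ⟨fun h => h rfl, fun h => h.elim⟩
    | l y => exact ⟨fun _ => trivial, fun _ h => nomatch h⟩
    | r z => exact ⟨fun _ => trivial, fun _ h => nomatch h⟩
  rw [← isOpen_compl_iff, this]
  exact isOpen_lo isOpen_univ

/-- The sum in the lower powerspace. -/
def jl : X1 ⊕ Seq → LowerPowerspace Z
  | Sum.inl x => ⟨closure {L.l x}, isClosed_closure⟩
  | Sum.inr z => ⟨closure {L.r z} ∪ {L.a}, isClosed_closure.union isClosed_a⟩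

theorem closure_meets {x : Z} {U : Set Z} (hU : IsOpen U) :
    (closure {x} ∩ U).Nonempty ↔ x ∈ U := by
  constructor
  · rintro ⟨y, hy, hyU⟩
    obtain ⟨z, hz1, hz2⟩ := mem_closure_iff.1 hy U hU hyU
    rwa [← mem_singleton_iff.1 hz2]
  · intro h
    exact ⟨x, subset_closure rfl, h⟩

theorem jl_inl {x : X1} {U : Set Z} (hU : IsOpen U) : jl (Sum.inl x) ∈ dia U ↔ L.l x ∈ U :=
  closure_meets hU

theorem jl_inr {z : Seq} {U : Set Z} (hU : IsOpen U) :
    jl (Sum.inr z) ∈ dia U ↔ L.r z ∈ U ∨ L.a ∈ U := by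
  constructor
  · rintro ⟨y, (hy | hy), hyU⟩
    · exact Or.inl ((closure_meets hU).1 ⟨y, hy, hyU⟩)
    · rw [mem_singleton_iff.1 hy] at hyU
      exact Or.inr hyU
  · rintro (h | h)
    · obtain ⟨y, hy, hyU⟩ := (closure_meets hU).2 h
      exact ⟨y, Or.inl hy, hyU⟩
    · exact ⟨_, Or.inr rfl, h⟩

theorem continuous_jl : Continuous jl := by
  refine continuous_generateFrom_iff.2 ?_
  rintro _ ⟨U, hU, rfl⟩
  rw [isOpen_sum_iff]
  constructor
  · have : (Sum.inl ⁻¹' (jl ⁻¹' {C | (C.1 ∩ U).Nonempty}) : Set X1) = L.l ⁻¹' U := by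
      ext x
      exact jl_inl hU
    rw [this]
    exact hU.1
  · by_cases ha : L.a ∈ U
    · have : (Sum.inr ⁻¹' (jl ⁻¹' {C | (C.1 ∩ U).Nonempty}) : Set Seq) = univ := by
        ext x
        exact ⟨fun _ => trivial, fun _ => (jl_inr hU).2 (Or.inr ha)⟩
      rw [this]
      exact isOpen_univ
    · have : (Sum.inr ⁻¹' (jl ⁻¹' {C | (C.1 ∩ U).Nonempty}) : Set Seq) = L.r ⁻¹' U := by
        ext x
        constructor
        · intro h
          rcases (jl_inr hU).1 h with h | h
          · exact h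
          · exact absurd h ha
        · intro h
          exact (jl_inr hU).2 (Or.inl h)
      rw [this]
      exact hU.2.1

/-- The open sets used in the lower powerspace. -/
def bigL (G : Set X1) (V : Set Seq) : Set (LowerPowerspace Z) :=
  dia (up False G) ∪ (dia (lo False V) ∩ dia (up True ∅))

/-- The lower powerspace of `Z` is not co-consonant. -/
theorem not_coConsonant_lower : ¬ CoConsonant (LowerPowerspace Z) := by
  classical
  intro hcon
  refine not_finGen jl continuous_jl bigL ?_ ?_ ?_ ?_ (finGen_of_coConsonant hcon)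
  · intro G V hG hV
    exact (isOpen_dia (isOpen_up hG)).union ((isOpen_dia (isOpen_lo hV)).inter
      (isOpen_dia (isOpen_up isOpen_empty)))
  · intro G V x hG hV
    constructor
    · rintro (h | ⟨_, h⟩)
      · exact (jl_inl (isOpen_up hG)).1 h
      · exact ((jl_inl (isOpen_up isOpen_empty)).1 h).elim
    · intro h
      exact Or.inl ((jl_inl (isOpen_up hG)).2 h)
  · intro G V z hG hV
    constructor
    · rintro (h | ⟨h, _⟩)
      · rcases (jl_inr (isOpen_up hG)).1 h with h | h
        · exact h.elim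
        · exact h.elim
      · rcases (jl_inr (isOpen_lo hV)).1 h with h | h
        · exact h
        · exact h.elim
    · intro h
      exact Or.inr ⟨(jl_inr (isOpen_lo hV)).2 (Or.inl h),
        (jl_inr (isOpen_up isOpen_empty)).2 (Or.inr trivial)⟩
  · rintro C (⟨x, hx, hxu⟩ | ⟨⟨x, hx, hxu⟩, ⟨x', hx', hxu'⟩⟩)
    · cases x with
      | a => exact hxu.elim
      | l y =>
        refine ⟨{y}, ∅, finite_singleton y, finite_empty, fun G V _ _ hG _ => ?_⟩
        exact Or.inl ⟨L.l y, hx, hG rfl⟩
      | r z => exact hxu.elim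
    · cases x with
      | a => exact hxu.elim
      | l y =>
        refine ⟨{y}, ∅, finite_singleton y, finite_empty, fun G V _ _ hG _ => ?_⟩
        exact Or.inl ⟨L.l y, hx, hG rfl⟩
      | r z =>
        refine ⟨∅, {z}, finite_empty, finite_singleton z, fun G V _ _ _ hV => ?_⟩
        exact Or.inr ⟨⟨L.r z, hx, hV rfl⟩, ⟨x', hx', hxu'⟩⟩

end Q209.CC
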