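import Pool.Agent.Q209.CC.SpaceZ

/-!
# The Smyth powerspace of the space `L X1 Seq`
-/

set_option autoImplicit false

namespace Q209.CC

open TopologicalSpace Set Topology
open Pool.Agent.Helper800.ConsL
open Q209.Om (W1)

/-- The saturation of a set. -/
def sat (S : Set Z) : Set Z := ⋂₀ {U | IsOpen U ∧ S ⊆ U}

theorem subset_sat (S : Set Z) : S ⊆ sat S := subset_sInter fun _ hU => hU.2

theorem sat_subset {S U : Set Z} (hU : IsOpen U) : sat S ⊆ U ↔ S ⊆ U :=
  ⟨fun h => (subset_sat S).trans h, fun h => sInter_subset_of_mem ⟨hU, h⟩⟩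

theorem sat_mem {S : Set Z} (hS : S.Finite) (hne : S.Nonempty) :
    (sat S).Nonempty ∧ IsCompact (sat S) ∧ IsSaturated (sat S) := by
  refine ⟨hne.mono (subset_sat S), ?_, ?_⟩
  · rw [isCompact_iff_finite_subcover]
    intro ι U hU hSU
    obtain ⟨t, ht⟩ := hS.isCompact.elim_finite_subcover U hU ((subset_sat S).trans hSU)
    exact ⟨t, (sat_subset (isOpen_biUnion fun i _ => hU i)).2 ht⟩
  · apply Subset.antisymm
    · intro x hx
      rw [sat, mem_sInter]
      rintro U ⟨hU, hSU⟩
      exact hx U ⟨hU, (sat_subset hU).2 hSU⟩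
    · exact subset_sInter fun U hU => hU.2

/-- The basic open sets of the Smyth powerspace. -/
def boxS (U : Set Z) : Set (SmythPowerspace Z) := {K | K.1 ⊆ U}

theorem isOpen_boxS {U : Set Z} (hU : IsOpen U) : IsOpen (boxS U) :=
  isOpen_generateFrom_of_mem ⟨U, hU, rfl⟩

/-- The sum in the Smyth powerspace. -/
def js : X1 ⊕ Seq → SmythPowerspace Z
  | Sum.inl x => ⟨sat {L.l x, L.a}, sat_mem (toFinite _) (insert_nonempty _ _)⟩
  | Sum.inr z => ⟨sat {L.r z}, sat_mem (toFinite _) (singleton_nonempty _)⟩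

theorem js_inl {x : X1} {U : Set Z} (hU : IsOpen U) :
    js (Sum.inl x) ∈ boxS U ↔ L.l x ∈ U ∧ L.a ∈ U := by
  refine (sat_subset hU).trans ?_
  rw [insert_subset_iff, singleton_subset_iff]

theorem js_inr {z : Seq} {U : Set Z} (hU : IsOpen U) :
    js (Sum.inr z) ∈ boxS U ↔ L.r z ∈ U := by
  refine (sat_subset hU).trans ?_
  rw [singleton_subset_iff]

theorem continuous_js : Continuous js := by
  refine continuous_generateFrom_iff.2 ?_
  rintro _ ⟨U, hU, rfl⟩
  rw [isOpen_sum_iff]
  constructor
  · by_cases ha : L.a ∈ U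
    · have : (Sum.inl ⁻¹' (js ⁻¹' {K | K.1 ⊆ U}) : Set X1) = L.l ⁻¹' U := by
        ext x
        exact (js_inl hU).trans ⟨fun h => h.1, fun h => ⟨h, ha⟩⟩
      rw [this]
      exact hU.1
    · have : (Sum.inl ⁻¹' (js ⁻¹' {K | K.1 ⊆ U}) : Set X1) = ∅ := by
        ext x
        exact (js_inl hU).trans ⟨fun h => (ha h.2).elim, fun h => h.elim⟩
      rw [this]
      exact isOpen_empty
  · have : (Sum.inr ⁻¹' (js ⁻¹' {K | K.1 ⊆ U}) : Set Seq) = L.r ⁻¹' U := by
      ext x
      exact js_inr hU
    rw [this]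
    exact hU.2.1

/-- The open sets used in the Smyth powerspace. -/
def bigS (G : Set X1) (V : Set Seq) : Set (SmythPowerspace Z) :=
  boxS (up True G) ∪ boxS (lo False V)

theorem isCompact_preimage_l {K : Set Z} (hK : IsCompact K) (h : K ⊆ up True univ) :
    IsCompact (L.l ⁻¹' K : Set X1) := by
  rw [isCompact_iff_finite_subcover]
  intro ι U hU hKU
  obtain ⟨t, ht⟩ := hK.elim_finite_subcover (fun i : Option ι => match i with
    | none => (up True ∅ : Set Z)
    | some i => up False (U i)) (by
      intro i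
      cases i with
      | none => exact isOpen_up isOpen_empty
      | some i => exact isOpen_up (hU i)) (by
      intro x hx
      cases x with
      | a => exact mem_iUnion.2 ⟨none, trivial⟩
      | l y =>
        obtain ⟨i, hi⟩ := mem_iUnion.1 (hKU hx)
        exact mem_iUnion.2 ⟨some i, hi⟩
      | r z => exact (h hx).elim)
  refine ⟨t.eraseNone, ?_⟩
  intro y hy
  obtain ⟨i, hi, hyi⟩ := mem_iUnion₂.1 (ht hy)
  cases i with
  | none => exact hyi.elim
  | some i => exact mem_iUnion₂.2 ⟨i, Finset.mem_eraseNone.2 hi, hyi⟩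

theorem isCompact_preimage_r {K : Set Z} (hK : IsCompact K) :
    IsCompact (L.r ⁻¹' K : Set Seq) := by
  rw [isCompact_iff_finite_subcover]
  intro ι U hU hKU
  obtain ⟨t, ht⟩ := hK.elim_finite_subcover (fun i : Option ι => match i with
    | none => (up True univ : Set Z)
    | some i => lo False (U i)) (by
      intro i
      cases i with
      | none => exact isOpen_up isOpen_univ
      | some i => exact isOpen_lo (hU i)) (by
      intro x hx
      cases x with
      | a => exact mem_iUnion.2 ⟨none, trivial⟩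
      | l y => exact mem_iUnion.2 ⟨none, trivial⟩
      | r z =>
        obtain ⟨i, hi⟩ := mem_iUnion.1 (hKU hx)
        exact mem_iUnion.2 ⟨some i, hi⟩)
  refine ⟨t.eraseNone, ?_⟩
  intro y hy
  obtain ⟨i, hi, hyi⟩ := mem_iUnion₂.1 (ht hy)
  cases i with
  | none => exact hyi.elim
  | some i => exact mem_iUnion₂.2 ⟨i, Finset.mem_eraseNone.2 hi, hyi⟩

/-- The Smyth powerspace of `Z` is not co-consonant. -/
theorem not_coConsonant_smyth : ¬ CoConsonant (SmythPowerspace Z) := by
  classical
  intro hcon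
  refine not_finGen js continuous_js bigS ?_ ?_ ?_ ?_ (finGen_of_coConsonant hcon)
  · intro G V hG hV
    exact (isOpen_boxS (isOpen_up hG)).union (isOpen_boxS (isOpen_lo hV))
  · intro G V x hG hV
    constructor
    · rintro (h | h)
      · exact ((js_inl (isOpen_up hG)).1 h).1
      · exact ((js_inl (isOpen_lo hV)).1 h).2.elim
    · intro h
      exact Or.inl ((js_inl (isOpen_up hG)).2 ⟨h, trivial⟩)
  · intro G V z hG hV
    constructor
    · rintro (h | h)
      · exact ((js_inr (isOpen_up hG)).1 h).elim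
      · exact (js_inr (isOpen_lo hV)).1 h
    · intro h
      exact Or.inr ((js_inr (isOpen_lo hV)).2 h)
  · rintro K (h | h)
    · refine ⟨L.l ⁻¹' K.1, ∅, Lin.finite_of_isCompact (isCompact_preimage_l K.2.2.1 h),
        finite_empty, fun G V _ _ hG _ => Or.inl ?_⟩
      intro x hx
      cases x with
      | a => trivial
      | l y => exact hG hx
      | r z => exact (h hx).elim
    · obtain ⟨k, hk⟩ := Seq.bounded_of_isCompact (isCompact_preimage_r K.2.2.1)
      refine ⟨∅, {k}, finite_empty, finite_singleton k, fun G V _ hV _ hkV => Or.inr ?_⟩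
      obtain ⟨n, hn⟩ := hV k (hkV rfl)
      intro x hx
      cases x with
      | a => exact (h hx).elim
      | l y => trivial
      | r z => exact hn fun i _ => hk z hx i

end Q209.CC
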