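import Pool.Agent.Q209.CC.Spaces

/-!
# The sum of the two spaces is not co-consonant
-/

set_option autoImplicit false

namespace Q209.CC

open TopologicalSpace Set Topology
open Pool.Agent.Helper800.Cons (ScottOpen)
open Q209.Om (W1)

/-- The index set of the first space. -/
abbrev X1 : Type := Lin (ℕ × W1)

/-- the isolated points -/
def X1.pt (n : ℕ) (c : W1) : X1 := (some (n, c) : Option (ℕ × W1))

/-- The Scott open family. -/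
def Good (G : Set X1) (V : Set Seq) : Prop :=
  Lin.inf _ ∈ G ∧ V.Nonempty ∧ ∀ (n : ℕ) (b : W1), (∃ c < b, X1.pt n c ∈ G) ∨ ∃ y ∈ V, b < y n

theorem Good.mono {G G' : Set X1} {V V' : Set Seq} (h : Good G V) (hG : G ⊆ G') (hV : V ⊆ V') :
    Good G' V' := by
  refine ⟨hG h.1, h.2.1.mono hV, fun n b => ?_⟩
  rcases h.2.2 n b with ⟨c, hc, h1⟩ | ⟨y, hy, h1⟩
  · exact Or.inl ⟨c, hc, hG h1⟩
  · exact Or.inr ⟨y, hV hy, h1⟩

/-- The Scott open family in the sum. -/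
def FF : Set (Set (X1 ⊕ Seq)) :=
  {Q | IsOpen Q ∧ Good (Sum.inl ⁻¹' Q) (Sum.inr ⁻¹' Q)}

/-- Bad columns. -/
def Bad (Q : Set (X1 ⊕ Seq)) (n : ℕ) : Prop :=
  ∃ b : W1, (∀ c < b, Sum.inl (X1.pt n c) ∉ Q) ∧ ∀ y : Seq, Sum.inr y ∈ Q → y n ≤ b

theorem Bad.anti {Q Q' : Set (X1 ⊕ Seq)} {n : ℕ} (h : Bad Q' n) (hQ : Q ⊆ Q') : Bad Q n := by
  obtain ⟨b, h1, h2⟩ := h
  exact ⟨b, fun c hc h => h1 c hc (hQ h), fun y hy => h2 y (hQ hy)⟩

theorem exists_pt {G : Set X1} (hG : IsOpen G) (h : Lin.inf _ ∈ G) (n : ℕ) :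
    ∃ c, X1.pt n c ∈ G := by
  have h1 : Gᶜ.Countable := hG h
  have h2 : {c : W1 | X1.pt n c ∈ Gᶜ}.Countable := by
    apply h1.preimage_of_injOn
    intro c _ c' _ hcc
    have : (some (n, c) : Option (ℕ × W1)) = some (n, c') := hcc
    simpa using this
  have : Countable {c : W1 | X1.pt n c ∈ Gᶜ} := h2
  obtain ⟨b, hb⟩ := Q209.Om.bdd (fun c : {c : W1 | X1.pt n c ∈ Gᶜ} => c.1)
  refine ⟨b, ?_⟩
  by_contra hcon
  exact lt_irrefl _ (hb ⟨b, hcon⟩)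

theorem scottOpen_FF : ScottOpen FF := by
  classical
  refine ⟨fun Q hQ => hQ.1, fun Q hQ Q' hQ' h => ⟨hQ', hQ.2.mono (preimage_mono h) (preimage_mono h)⟩, ?_⟩
  intro D hne hdir hop hmem
  by_contra hcon
  have hcon' : ∀ Q ∈ D, ¬ Good (Sum.inl ⁻¹' Q) (Sum.inr ⁻¹' Q) := fun Q hQ h => hcon ⟨Q, hQ, hop Q hQ, h⟩
  obtain ⟨h1, ⟨y0, h2⟩, h3⟩ := hmem.2
  obtain ⟨Q1, hQ1, hinf1⟩ := h1
  obtain ⟨Q2, hQ2, hy02⟩ := h2
  obtain ⟨Q0, hQ0, h10, h20⟩ := hdir Q1 hQ1 Q2 hQ2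
  have hinf : Sum.inl (Lin.inf _) ∈ Q0 := h10 hinf1
  have hy0 : Sum.inr y0 ∈ Q0 := h20 hy02
  have hV0 : IsOpen (Sum.inr ⁻¹' Q0 : Set Seq) := (hop Q0 hQ0).preimage continuous_inr
  obtain ⟨m, hm⟩ := hV0 y0 hy0
  -- every larger member has a bad column with a small number
  have hbad : ∀ Q ∈ D, Q0 ⊆ Q → ∃ n < m, Bad Q n := by
    intro Q hQ hQQ
    have h4 := hcon' Q hQ
    have h5 : ∃ n, ∃ b : W1, (¬ ∃ c < b, X1.pt n c ∈ (Sum.inl ⁻¹' Q : Set X1)) ∧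
        ¬ ∃ y ∈ (Sum.inr ⁻¹' Q : Set Seq), b < y n := by
      by_contra h6
      apply h4
      refine ⟨hQQ hinf, ⟨y0, hQQ hy0⟩, fun n b => ?_⟩
      by_contra h7
      exact h6 ⟨n, b, fun h => h7 (Or.inl h), fun h => h7 (Or.inr h)⟩
    obtain ⟨n, b, h6, h7⟩ := h5
    refine ⟨n, ?_, b, fun c hc h => h6 ⟨c, hc, h⟩, fun y hy => not_lt.1 fun h => h7 ⟨y, hy, h⟩⟩
    by_contra hnm
    obtain ⟨c, hc⟩ := Q209.Om.exists_gt b
    apply h7
    let z : Seq := fun i => if i < m then y0 i else c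
    have hz : z ∈ box y0 m := fun i hi => le_of_eq (if_pos hi)
    refine ⟨z, hQQ (hm hz), ?_⟩
    have : z n = c := if_neg hnm
    rw [this]
    exact hc
  -- one column is bad for all larger members
  have hcol : ∃ n, ∀ Q ∈ D, Q0 ⊆ Q → Bad Q n := by
    by_contra hno
    push Not at hno
    have h4 : ∀ k, ∃ Q ∈ D, Q0 ⊆ Q ∧ ∀ n < k, ¬ Bad Q n := by
      intro k
      induction k with
      | zero => exact ⟨Q0, hQ0, Subset.rfl, fun n hn => absurd hn (Nat.not_lt_zero n)⟩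
      | succ k ih =>
        obtain ⟨Q, hQ, hQQ, h5⟩ := ih
        obtain ⟨Q', hQ', hQQ', h6⟩ := hno k
        obtain ⟨Q'', hQ'', h7, h8⟩ := hdir Q hQ Q' hQ'
        refine ⟨Q'', hQ'', Subset.trans hQQ h7, fun n hn hb => ?_⟩
        rcases Nat.lt_succ_iff_lt_or_eq.1 hn with h | rfl
        · exact h5 n h (hb.anti h7)
        · exact h6 (hb.anti h8)
    obtain ⟨Q, hQ, hQQ, h5⟩ := h4 m
    obtain ⟨n, hn, hb⟩ := hbad Q hQ hQQ
    exact h5 n hn hb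
  obtain ⟨n, hn⟩ := hcol
  -- the least point of the column
  have hne' : {c : W1 | ∃ Q ∈ D, Sum.inl (X1.pt n c) ∈ Q}.Nonempty := by
    obtain ⟨c, hc⟩ := exists_pt ((hop Q0 hQ0).preimage continuous_inl) hinf n
    exact ⟨c, Q0, hQ0, hc⟩
  obtain ⟨c, ⟨Q3, hQ3, hc⟩, hmin⟩ := (wellFounded_lt (α := W1)).has_min _ hne'
  obtain ⟨Q4, hQ4, h34, h04⟩ := hdir Q3 hQ3 Q0 hQ0
  have hle : ∀ y : Seq, Sum.inr y ∈ ⋃₀ D → y n ≤ c := by
    rintro y ⟨Q5, hQ5, hy⟩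
    obtain ⟨Q, hQ, h4Q, h5Q⟩ := hdir Q4 hQ4 Q5 hQ5
    obtain ⟨b, hb1, hb2⟩ := hn Q hQ (Subset.trans h04 h4Q)
    have hbc : b ≤ c := not_lt.1 fun h => hb1 c h (h4Q (h34 hc))
    exact (hb2 y (h5Q hy)).trans hbc
  rcases h3 n c with ⟨c', hc', Q5, hQ5, h⟩ | ⟨y, hy, h⟩
  · exact hmin c' ⟨Q5, hQ5, h⟩ hc'
  · exact absurd h (not_lt.2 (hle y hy))

/-- A space in which the sum can be found in a suitable way does not have the property. -/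
theorem not_finGen {P : Type} [TopologicalSpace P] (j : X1 ⊕ Seq → P) (hj : Continuous j)
    (big : Set X1 → Set Seq → Set P)
    (hbig : ∀ G V, IsOpen G → IsOpen V → IsOpen (big G V))
    (h1 : ∀ G V x, IsOpen G → IsOpen V → (j (Sum.inl x) ∈ big G V ↔ x ∈ G))
    (h2 : ∀ G V y, IsOpen G → IsOpen V → (j (Sum.inr y) ∈ big G V ↔ y ∈ V))
    (h3 : ∀ p ∈ big univ univ, ∃ (A : Set X1) (B : Set Seq), A.Finite ∧ B.Finite ∧
      ∀ G V, IsOpen G → IsOpen V → A ⊆ G → B ⊆ V → p ∈ big G V) : ¬ FinGen P := by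
  classical
  intro hP
  have hmem : big univ univ ∈ {W : Set P | IsOpen W ∧ j ⁻¹' W ∈ FF} := by
    refine ⟨hbig _ _ isOpen_univ isOpen_univ, (hbig _ _ isOpen_univ isOpen_univ).preimage hj, ?_⟩
    obtain ⟨c⟩ := w1_nonempty
    refine ⟨(h1 _ _ _ isOpen_univ isOpen_univ).2 trivial, ⟨fun _ => c, (h2 _ _ _ isOpen_univ isOpen_univ).2 trivial⟩, fun n b => Or.inr ?_⟩
    obtain ⟨c, hc⟩ := Q209.Om.exists_gt b
    exact ⟨fun _ => c, (h2 _ _ _ isOpen_univ isOpen_univ).2 trivial, hc⟩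
  obtain ⟨K, hK, hKb, hKV⟩ := hP _ (scottOpen_FF.push j hj) _ hmem
  choose A B hA hB hAB using h3
  have : Finite K := hK
  have hAf : (⋃ p : K, A p.1 (hKb p.2)).Finite := finite_iUnion fun p => hA _ _
  have hBf : (⋃ p : K, B p.1 (hKb p.2)).Finite := finite_iUnion fun p => hB _ _
  -- a column without points of `A`
  obtain ⟨n, hn⟩ : ∃ n : ℕ, ∀ c, X1.pt n c ∉ ⋃ p : K, A p.1 (hKb p.2) := by
    have hf : ((fun x : X1 => (match x with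
      | none => 0
      | some (n, _) => n : ℕ)) '' ⋃ p : K, A p.1 (hKb p.2)).Finite := hAf.image _
    obtain ⟨n, hn⟩ := hf.exists_notMem
    exact ⟨n, fun c hc => hn ⟨_, hc, rfl⟩⟩
  have hW : Nonempty W1 := w1_nonempty
  obtain ⟨b, hb⟩ := ((hBf.image fun y : Seq => y n)).bddAbove
  have hG : IsOpen {x : X1 | ∀ c < b, x ≠ X1.pt n c} := by
    intro _
    have h4 : (Iio b).Countable := Q209.Om.countable_Iio b
    refine (h4.image (X1.pt n)).mono ?_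
    intro x hx
    by_contra hx'
    exact hx fun c hc h => hx' ⟨c, hc, h.symm⟩
  have hmem2 := hKV (big {x : X1 | ∀ c < b, x ≠ X1.pt n c} {y : Seq | y n ≤ b})
    (hbig _ _ hG (isOpen_le n b)) (by
      intro p hp
      refine hAB p (hKb hp) _ _ hG (isOpen_le n b) ?_ ?_
      · rintro x hx c _ rfl
        exact hn c (mem_iUnion.2 ⟨⟨p, hp⟩, hx⟩)
      · intro y hy
        exact hb ⟨y, mem_iUnion.2 ⟨⟨p, hp⟩, hy⟩, rfl⟩)
  rcases hmem2.2.2.2.2 n b with ⟨c, hc, h⟩ | ⟨y, hy, h⟩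
  · exact (h1 _ _ _ hG (isOpen_le n b)).1 h c hc rfl
  · exact absurd h (not_lt.2 ((h2 _ _ _ hG (isOpen_le n b)).1 hy))

end Q209.CC
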