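import Pool.Agent.Q209.CC.Lex
import Pool.Agent.Q209.CC.SumCC

/-!
# The co-consonant space `Z`
-/

set_option autoImplicit false

namespace Q209.CC

open TopologicalSpace Set Topology
open Pool.Agent.Helper800.ConsL

/-- The co-consonant space. -/
abbrev Z : Type := L X1 Seq

theorem t0_Z : T0Space Z := t0_L Lin.t0 Seq.t0

theorem coConsonant_Z : CoConsonant Z := coConsonant_of_finGen (finGen_L Lin.finGen Seq.finGen)

end Q209.CC
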