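import Pool.Agent.Q209.CC.Equiv
import Pool.Agent.Q209.W1

/-!
# Two co-consonant spaces whose sum is not co-consonant
-/

set_option autoImplicit false

namespace Q209.CC

open TopologicalSpace Set Topology
open Pool.Agent.Helper800.Cons (ScottOpen)
open Q209.Om (W1)

/-! ### The one-point Lindelöfication of a discrete space -/

/-- A discrete set `I` and one further point, the neighbourhoods of which are the sets with
countable complement. -/
def Lin (I : Type) : Type := Option I

variable {I : Type}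

instance : TopologicalSpace (Lin I) where
  IsOpen U := (none : Option I) ∈ U → Uᶜ.Countable
  isOpen_univ := fun _ => by simp
  isOpen_inter := by
    intro U V hU hV h
    rw [compl_inter]
    exact (hU h.1).union (hV h.2)
  isOpen_sUnion := by
    rintro S hS ⟨U, hU, h⟩
    exact (hS U hU h).mono (compl_subset_compl.2 (subset_sUnion_of_mem hU))

/-- the limit point -/
def Lin.inf (I : Type) : Lin I := (none : Option I)

theorem Lin.isOpen_iff {U : Set (Lin I)} : IsOpen U ↔ (Lin.inf I ∈ U → Uᶜ.Countable) := Iff.rfl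

theorem Lin.t0 : T0Space (Lin I) := by
  have hone : ∀ x : Lin I, x ≠ Lin.inf I → IsOpen ({x} : Set (Lin I)) := by
    intro x hx h
    exact absurd (mem_singleton_iff.1 h).symm hx
  rw [t0Space_iff_inseparable]
  intro x y h
  rw [inseparable_iff_forall_isOpen] at h
  by_cases hx : x = Lin.inf I
  · by_cases hy : y = Lin.inf I
    · rw [hx, hy]
    · exact ((h {y} (hone y hy)).2 rfl)
  · exact ((h {x} (hone x hx)).1 rfl).symm

theorem Lin.finGen : FinGen (Lin I) := by
  classical
  intro F hF U hU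
  by_contra hcon
  push Not at hcon
  choose V hVo hKV hVF using hcon
  by_cases hinf : Lin.inf I ∈ U
  · -- the choice function
    have hex : ∀ K : Set (Lin I), K.Finite → K ⊆ U → ∃ V : Set (Lin I), IsOpen V ∧
        Lin.inf I ∈ V ∧ K ⊆ V ∧ V ∉ F := by
      intro K hK hKU
      have h1 : (insert (Lin.inf I) K).Finite := hK.insert _
      have h2 : insert (Lin.inf I) K ⊆ U := insert_subset hinf hKU
      refine ⟨V _ h1 h2, hVo _ h1 h2, hKV _ h1 h2 (mem_insert _ _), ?_, hVF _ h1 h2⟩
      exact (subset_insert _ _).trans (hKV _ h1 h2)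
    choose W hWo hWi hKW hWF using hex
    have hUc : Uᶜ.Countable := hF.isOpen U hU hinf
    let G : Set (Lin I) → Set (Lin I) := fun K =>
      if h : K.Finite ∧ K ⊆ U then U \ W K h.1 h.2 else ∅
    have hG : ∀ K, (G K).Countable := by
      intro K
      by_cases h : K.Finite ∧ K ⊆ U
      · have : G K = U \ W K h.1 h.2 := dif_pos h
        rw [this]
        exact (hWo K h.1 h.2 (hWi K h.1 h.2)).mono (fun x hx => hx.2)
      · have : G K = ∅ := dif_neg h
        rw [this]
        exact countable_empty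
    have hGU : ∀ K, G K ⊆ U \ {Lin.inf I} := by
      intro K
      by_cases h : K.Finite ∧ K ⊆ U
      · have : G K = U \ W K h.1 h.2 := dif_pos h
        rw [this]
        rintro x ⟨hx1, hx2⟩
        refine ⟨hx1, fun hx => hx2 ?_⟩
        rw [mem_singleton_iff.1 hx]
        exact hWi K h.1 h.2
      · have : G K = ∅ := dif_neg h
        rw [this]
        exact empty_subset _
    let T : ℕ → Set (Lin I) := fun n => Nat.rec ∅ (fun _ A => A ∪ ⋃ K ∈ {K : Set (Lin I) | K.Finite ∧ K ⊆ A}, G K) n
    have hT : ∀ n, T (n + 1) = T n ∪ ⋃ K ∈ {K : Set (Lin I) | K.Finite ∧ K ⊆ T n}, G K := fun n => rfl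
    have hTc : ∀ n, (T n).Countable := by
      intro n
      induction n with
      | zero => exact countable_empty
      | succ n ih =>
        rw [hT]
        exact ih.union ((Set.countable_ofPred_finite_subset ih).biUnion fun K _ => hG K)
    have hTU : ∀ n, T n ⊆ U \ {Lin.inf I} := by
      intro n
      induction n with
      | zero => exact empty_subset _
      | succ n ih =>
        rw [hT]
        exact union_subset ih (iUnion₂_subset fun K _ => hGU K)
    have hTmono : Monotone T := monotone_nat_of_le_succ fun n => by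
      rw [hT]
      exact subset_union_left
    -- the countable closed set
    have hTTc : (⋃ n, T n).Countable := countable_iUnion hTc
    have hTTU : (⋃ n, T n) ⊆ U \ {Lin.inf I} := iUnion_subset hTU
    have hfin : ∀ K : Set (Lin I), K.Finite → K ⊆ (⋃ n, T n) → ∃ n, K ⊆ T n := by
      intro K hK hKT
      induction K, hK using Set.Finite.induction_on with
      | empty => exact ⟨0, empty_subset _⟩
      | @insert a K _ _ ih =>
        obtain ⟨n, hn⟩ := ih ((subset_insert _ _).trans hKT)
        obtain ⟨m, hm⟩ := mem_iUnion.1 (hKT (mem_insert _ _))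
        refine ⟨max n m, insert_subset (hTmono (le_max_right n m) hm) (hn.trans (hTmono (le_max_left n m)))⟩
    have hcl : ∀ K : Set (Lin I), K.Finite → K ⊆ (⋃ n, T n) → G K ⊆ ⋃ n, T n := by
      intro K hK hKT
      obtain ⟨n, hn⟩ := hfin K hK hKT
      refine Subset.trans ?_ (subset_iUnion T (n + 1))
      rw [hT]
      exact subset_union_of_subset_right (subset_biUnion_of_mem (u := fun K => G K)
        (show K ∈ {K : Set (Lin I) | K.Finite ∧ K ⊆ T n} from ⟨hK, hn⟩)) _
    -- the directed family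
    let D : Set (Set (Lin I)) := {A | ∃ K : Set (Lin I), K.Finite ∧ K ⊆ (⋃ n, T n) ∧
      A = (U \ ⋃ n, T n) ∪ K}
    have hRo : ∀ K : Set (Lin I), IsOpen ((U \ ⋃ n, T n) ∪ K) := by
      intro K _
      refine (hUc.union hTTc).mono ?_
      intro x hx
      by_contra hx'
      apply hx
      left
      exact ⟨by_contra fun h => hx' (Or.inl h), fun h => hx' (Or.inr h)⟩
    obtain ⟨_, ⟨K, hK, hKT, rfl⟩, hKF⟩ := hF.directed D ⟨_, ∅, finite_empty, empty_subset _, rfl⟩ (by
        rintro _ ⟨K, hK, hKT, rfl⟩ _ ⟨K', hK', hKT', rfl⟩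
        refine ⟨_, ⟨K ∪ K', hK.union hK', union_subset hKT hKT', rfl⟩, ?_, ?_⟩
        · exact union_subset_union_right _ subset_union_left
        · exact union_subset_union_right _ subset_union_right) (by
        rintro _ ⟨K, hK, hKT, rfl⟩
        exact hRo K) (by
        have : ⋃₀ D = U := by
          apply Subset.antisymm
          · apply sUnion_subset
            rintro _ ⟨K, hK, hKT, rfl⟩
            exact union_subset sdiff_subset (hKT.trans (hTTU.trans sdiff_subset))
          · intro x hx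
            by_cases hxT : x ∈ ⋃ n, T n
            · exact ⟨_, ⟨{x}, finite_singleton x, singleton_subset_iff.2 hxT, rfl⟩, Or.inr rfl⟩
            · exact ⟨_, ⟨∅, finite_empty, empty_subset _, rfl⟩, Or.inl ⟨hx, hxT⟩⟩
        rw [this]
        exact hU)
    have hKU : K ⊆ U := hKT.trans (hTTU.trans sdiff_subset)
    apply hWF K hK hKU
    apply hF.upper _ hKF _ (hWo K hK hKU)
    apply union_subset _ (hKW K hK hKU)
    rintro x ⟨hx1, hx2⟩
    by_contra hx3
    apply hx2
    apply hcl K hK hKT
    have : G K = U \ W K hK hKU := dif_pos ⟨hK, hKU⟩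
    rw [this]
    exact ⟨hx1, hx3⟩
  · -- `U` is discrete
    have hop : ∀ K ⊆ U, IsOpen K := fun K hK h => absurd (hK h) hinf
    obtain ⟨K, ⟨hK, hKU⟩, hKF⟩ := hF.directed {K | K.Finite ∧ K ⊆ U} ⟨∅, finite_empty, empty_subset _⟩ (by
        rintro K ⟨hK, hKU⟩ K' ⟨hK', hKU'⟩
        exact ⟨K ∪ K', ⟨hK.union hK', union_subset hKU hKU'⟩, subset_union_left, subset_union_right⟩) (by
        rintro K ⟨hK, hKU⟩
        exact hop K hKU) (by
        have : ⋃₀ {K | K.Finite ∧ K ⊆ U} = U := by
          apply Subset.antisymm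
          · exact sUnion_subset fun K hK => hK.2
          · intro x hx
            exact ⟨{x}, ⟨finite_singleton x, singleton_subset_iff.2 hx⟩, rfl⟩
        rw [this]
        exact hU)
    exact hVF K hK hKU (hF.upper _ hKF _ (hVo K hK hKU) (hKV K hK hKU))

theorem Lin.finite_of_isCompact {K : Set (Lin I)} (hK : IsCompact K) : K.Finite := by
  by_contra hinf
  obtain ⟨N, hN, hNc, hNi⟩ : ∃ N ⊆ K \ {Lin.inf I}, N.Countable ∧ N.Infinite := by
    have h1 : (K \ {Lin.inf I}).Infinite := by
      intro h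
      apply hinf
      exact (h.union (finite_singleton (Lin.inf I))).subset fun x hx => by
        by_cases hx' : x = Lin.inf I
        · exact Or.inr hx'
        · exact Or.inl ⟨hx, hx'⟩
    let e := h1.natEmbedding
    refine ⟨range fun n => (e n : Lin I), ?_, countable_range _, ?_⟩
    · rintro _ ⟨n, rfl⟩
      exact (e n).2
    · exact infinite_range_of_injective fun a b hab => e.injective (Subtype.ext hab)
  have hNinf : Lin.inf I ∉ N := fun h => (hN h).2 rfl
  obtain ⟨_, ⟨e, he, rfl⟩, hKe⟩ : ∃ A ∈ {A | ∃ e : Set (Lin I), (e.Finite ∧ e ⊆ N) ∧ A = Nᶜ ∪ e}, K ⊆ A := by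
    have : Nonempty {e : Set (Lin I) // e.Finite ∧ e ⊆ N} := ⟨⟨∅, finite_empty, empty_subset _⟩⟩
    have := hK.elim_directed_cover (fun e : {e : Set (Lin I) // e.Finite ∧ e ⊆ N} => Nᶜ ∪ e.1)
      (by
        intro e h
        refine hNc.mono ?_
        intro x hx
        by_contra hx'
        exact hx (Or.inl hx')) (by
        intro x hx
        by_cases hxN : x ∈ N
        · exact mem_iUnion.2 ⟨⟨{x}, finite_singleton x, singleton_subset_iff.2 hxN⟩, Or.inr rfl⟩
        · exact mem_iUnion.2 ⟨⟨∅, finite_empty, empty_subset _⟩, Or.inl hxN⟩) (by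
        intro e e'
        refine ⟨⟨e.1 ∪ e'.1, e.2.1.union e'.2.1, union_subset e.2.2 e'.2.2⟩, ?_, ?_⟩
        · exact union_subset_union_right _ subset_union_left
        · exact union_subset_union_right _ subset_union_right)
    obtain ⟨e, he⟩ := this
    exact ⟨_, ⟨e.1, e.2, rfl⟩, he⟩
  apply hNi
  refine he.1.subset fun x hx => ?_
  rcases hKe (hN hx).1 with h | h
  · exact absurd hx h
  · exact h

/-! ### The functions from `ℕ` to `ω₁` -/

theorem w1_nonempty : Nonempty W1 := by
  obtain ⟨b, _⟩ := Q209.Om.bdd (Empty.elim : Empty → W1)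
  exact ⟨b⟩

/-- The functions from `ℕ` to `ω₁`; a neighbourhood of `y` contains all `z` such that `z i ≤ y i`
for all `i < n`, for some `n`. -/
def Seq : Type := ℕ → W1

/-- the basic neighbourhoods -/
def box (y : Seq) (n : ℕ) : Set Seq := {z | ∀ i < n, z i ≤ y i}

theorem box_mono {y : Seq} {m n : ℕ} (h : m ≤ n) : box y n ⊆ box y m :=
  fun _ hz i hi => hz i (hi.trans_le h)

instance : TopologicalSpace Seq where
  IsOpen U := ∀ y ∈ U, ∃ n, box y n ⊆ U
  isOpen_univ := fun _ _ => ⟨0, subset_univ _⟩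
  isOpen_inter := by
    rintro U V hU hV y ⟨h1, h2⟩
    obtain ⟨n, hn⟩ := hU y h1
    obtain ⟨m, hm⟩ := hV y h2
    exact ⟨max n m, subset_inter ((box_mono (le_max_left _ _)).trans hn)
      ((box_mono (le_max_right _ _)).trans hm)⟩
  isOpen_sUnion := by
    rintro S hS y ⟨U, hU, hy⟩
    obtain ⟨n, hn⟩ := hS U hU y hy
    exact ⟨n, hn.trans (subset_sUnion_of_mem hU)⟩

theorem Seq.isOpen_iff {U : Set Seq} : IsOpen U ↔ ∀ y ∈ U, ∃ n, box y n ⊆ U := Iff.rfl

theorem isOpen_box (y : Seq) (n : ℕ) : IsOpen (box y n) :=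
  fun _ hz => ⟨n, fun _ hw i hi => (hw i hi).trans (hz i hi)⟩

theorem mem_box (y : Seq) (n : ℕ) : y ∈ box y n := fun _ _ => le_rfl

theorem isOpen_le (n : ℕ) (b : W1) : IsOpen {z : Seq | z n ≤ b} :=
  fun _ hz => ⟨n + 1, fun _ hw => (hw n (Nat.lt_succ_self n)).trans hz⟩

theorem Seq.t0 : T0Space Seq := by
  rw [t0Space_iff_inseparable]
  intro x y h
  rw [inseparable_iff_forall_isOpen] at h
  funext n
  exact le_antisymm
    ((h _ (isOpen_le n (y n))).2 (show y ∈ {z : Seq | z n ≤ y n} from le_refl (y n)))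
    ((h _ (isOpen_le n (x n))).1 (show x ∈ {z : Seq | z n ≤ x n} from le_refl (x n)))

theorem Seq.finGen : FinGen Seq := by
  classical
  intro F hF U hU
  -- a finite union of boxes in the family
  have hUo : ∀ y ∈ U, ∃ n, box y n ⊆ U := hF.isOpen U hU
  choose N hN using hUo
  obtain ⟨_, ⟨S, hS, hSU, rfl⟩, hSF⟩ := hF.directed
    {A | ∃ S : Set Seq, ∃ (_ : S.Finite) (hSU : S ⊆ U), A = ⋃ y : S, box y.1 (N y.1 (hSU y.2))}
    ⟨_, ∅, finite_empty, empty_subset _, rfl⟩ (by
      rintro _ ⟨S, hS, hSU, rfl⟩ _ ⟨S', hS', hSU', rfl⟩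
      refine ⟨_, ⟨S ∪ S', hS.union hS', union_subset hSU hSU', rfl⟩, ?_, ?_⟩
      · exact iUnion_subset fun y => subset_iUnion_of_subset ⟨y.1, Or.inl y.2⟩ Subset.rfl
      · exact iUnion_subset fun y => subset_iUnion_of_subset ⟨y.1, Or.inr y.2⟩ Subset.rfl) (by
      rintro _ ⟨S, hS, hSU, rfl⟩
      exact isOpen_iUnion fun y => isOpen_box _ _) (by
      refine hF.upper U hU _ ?_ ?_
      · apply isOpen_sUnion
        rintro _ ⟨S, hS, hSU, rfl⟩
        exact isOpen_iUnion fun y => isOpen_box _ _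
      · intro y hy
        refine ⟨_, ⟨{y}, finite_singleton y, singleton_subset_iff.2 hy, rfl⟩, ?_⟩
        exact mem_iUnion.2 ⟨⟨y, rfl⟩, mem_box _ _⟩)
  -- cutting down coordinate by coordinate
  have hcut : ∀ (n : ℕ) (G : {G : Set Seq // G ∈ F}), ∃ b : W1, G.1 ∩ {z : Seq | z n ≤ b} ∈ F := by
    rintro n ⟨G, hG⟩
    have hGo := hF.isOpen G hG
    obtain ⟨_, ⟨b, rfl⟩, hb⟩ := hF.directed (range fun b : W1 => G ∩ {z : Seq | z n ≤ b}) (by
        obtain ⟨b⟩ := w1_nonempty
        exact ⟨_, b, rfl⟩) (by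
        rintro _ ⟨b, rfl⟩ _ ⟨b', rfl⟩
        exact ⟨_, ⟨max b b', rfl⟩, fun z hz => ⟨hz.1, show z n ≤ max b b' from (show z n ≤ b from hz.2).trans (le_max_left _ _)⟩,
          fun z hz => ⟨hz.1, show z n ≤ max b b' from (show z n ≤ b' from hz.2).trans (le_max_right _ _)⟩⟩) (by
        rintro _ ⟨b, rfl⟩
        exact hGo.inter (isOpen_le n b)) (by
        have : ⋃₀ (range fun b : W1 => G ∩ {z : Seq | z n ≤ b}) = G := by
          apply Subset.antisymm
          · apply sUnion_subset
            rintro _ ⟨b, rfl⟩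
            exact inter_subset_left
          · intro z hz
            exact ⟨_, ⟨z n, rfl⟩, hz, show z n ≤ z n from le_refl _⟩
        rw [this]
        exact hG)
    exact ⟨b, hb⟩
  choose b hb using hcut
  let G : ℕ → {G : Set Seq // G ∈ F} := fun n =>
    Nat.rec ⟨_, hSF⟩ (fun n G => ⟨G.1 ∩ {z : Seq | z n ≤ b n G}, hb n G⟩) n
  let k : Seq := fun n => b n (G n)
  have hG0 : (G 0).1 = ⋃ y : S, box y.1 (N y.1 (hSU y.2)) := rfl
  have hG : ∀ n, (G (n + 1)).1 = (G n).1 ∩ {z : Seq | z n ≤ k n} := fun n => rfl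
  have hGk : ∀ n, (G n).1 = (G 0).1 ∩ box k n := by
    intro n
    induction n with
    | zero =>
      ext z
      exact ⟨fun h => ⟨h, fun i hi => absurd hi (Nat.not_lt_zero i)⟩, fun h => h.1⟩
    | succ n ih =>
      rw [hG, ih]
      ext z
      constructor
      · rintro ⟨⟨h1, h2⟩, h3⟩
        refine ⟨h1, fun i hi => ?_⟩
        rcases Nat.lt_succ_iff_lt_or_eq.1 hi with h | rfl
        · exact h2 i h
        · exact h3
      · rintro ⟨h1, h2⟩
        exact ⟨⟨h1, fun i hi => h2 i (hi.trans (Nat.lt_succ_self n))⟩, h2 n (Nat.lt_succ_self n)⟩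
  -- the finite set
  let f : S → Seq := fun y i => if i < N y.1 (hSU y.2) then y.1 i else k i
  have hfS : Finite S := hS
  refine ⟨range f, finite_range f, ?_, ?_⟩
  · rintro _ ⟨y, rfl⟩
    apply hN y.1 (hSU y.2)
    intro i hi
    exact le_of_eq (if_pos hi)
  · intro V hV hfV
    have h1 : ∀ y : S, ∃ n, box (f y) n ⊆ V := fun y => hV _ (hfV ⟨y, rfl⟩)
    choose n hn using h1
    obtain ⟨m, hm⟩ := (Set.finite_range n).bddAbove
    apply hF.upper _ (G m).2 V hV
    rw [hGk, hG0]
    rintro z ⟨hz1, hz2⟩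
    obtain ⟨y, hy⟩ := mem_iUnion.1 hz1
    apply hn y
    intro i hi
    by_cases hiN : i < N y.1 (hSU y.2)
    · have : f y i = y.1 i := if_pos hiN
      rw [this]
      exact hy i hiN
    · have : f y i = k i := if_neg hiN
      rw [this]
      exact hz2 i (hi.trans_le (hm ⟨y, rfl⟩))

/-- A compact set of functions has an upper bound. -/
theorem Seq.bounded_of_isCompact {K : Set Seq} (hK : IsCompact K) : ∃ k : Seq, ∀ y ∈ K, ∀ n, y n ≤ k n := by
  have : ∀ n, ∃ b : W1, ∀ y ∈ K, y n ≤ b := by
    intro n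
    have hne : Nonempty W1 := w1_nonempty
    obtain ⟨b, hb⟩ := hK.elim_directed_cover (fun b : W1 => {z : Seq | z n ≤ b})
      (fun b => isOpen_le n b) (fun y _ => mem_iUnion.2 ⟨y n, show y n ≤ y n from le_refl _⟩) (by
        intro b b'
        exact ⟨max b b', fun z (hz : z n ≤ b) => hz.trans (le_max_left b b'),
          fun z (hz : z n ≤ b') => hz.trans (le_max_right b b')⟩)
    exact ⟨b, fun y hy => hb hy⟩
  choose k hk using this
  exact ⟨k, fun y hy n => hk n y hy⟩

end Q209.CC
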